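import Mathlib
import Pool.Agent.Q18.P.MQL

/-!
# The Birch and Swinnerton-Dyer rank conjecture over multiquadratic fields from one-sided bounds on one sequence of windows

Let `a, b ∈ ℤ`, `4a³ + 27b² ≠ 0`, `E : y² = x³ + a x + b`, `K = ℚ(√e₁, …, √e_n)` of degree `2ⁿ`; for `T ⊆ {1, …, n}` let
`e_T = ∏_{i ∈ T} e_i` and `E_T : y² = x³ + a e_T² x + b e_T³`, the quadratic twist.  `S` is a finite set of places of `K`
containing those dividing `6 (4a³ + 27b²) ∏ e_i`, `F(s) = L(E/K, s)` without the factors at `S`, and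

  `P(y) = ∏_{v ∉ S, q_v ≤ y} #E(k_v)/q_v`,   `P*(y) = exp (- ∑_{v ∉ S, q_v^k ≤ y} (α_v^k + β_v^k)/(k q_v^k))`,

ONE product over the places of `K`.  What is known about the twists over `ℚ` is `Known`: modularity, the parity `w_T` of the
order at `s = 1` (`w_T = 0, 1` for the root number `1, -1`), and the theorem of Gross, Zagier and Kolyvagin.  Let
`m₋ = ∑ w_T` (the number of the twists with root number `-1`), `0 < δ < 1`; `MeanBound δ G B Y`:
`∫_{Y^{1-δ}}^Y G(y) dy/y ≤ B log Y`; `U(κ)` for arbitrarily large `Y` is: `MeanBound` for `(log P - κ log log)⁺` on one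
sequence of windows, as sparse as we like.

1. `U(κ)` for arbitrarily large `Y` ⟹ the Riemann hypothesis for `F`; `ord_{s=1} L(E/K, s) ≤ κ`; for all but at most
   `(κ - m₋)/2` of the `2ⁿ` twists the rank and the order are both `w_T`; if `κ < m₋ + 2`: the Birch and Swinnerton-Dyer
   rank conjecture for `E/K`, and `rank E(K) = m₋`.
2. If it fails for `E/K`, then `U(κ)` fails for all large `Y`, for every `κ < m₋ + 2`, with any constant.  If
   `rank ≠ order` (or `order ≠ w_T`) for at least `k` of the twists, the same for `κ < m₋ + 2k`.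
3. For `m₋ ≤ κ < m₋ + 2`: [the Riemann hypothesis for `F` and `ord_{s=1} L(E/K, s) = rank E(K) = m₋`] ⟺ `U(κ)` for
   arbitrarily large `Y` ⟺ `U(κ)` for all large `Y`.
4. The same with the leading coefficient, by `P*`.

New here is also the equality `rank E(K) = ∑_T rank E_T(ℚ)` in Lean (`Pool.Agent.Q18.P.MQ.rank_eq`; well known).
-/

set_option autoImplicit false

namespace Pool.Agent.Results.MP_32c55d_nt.MultiquadraticWindows

open Filter Topology Set Complex NumberField IsDedekindDomain MeasureTheory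
open Pool.Agent.Y19.QT (rkK Indep IsLFun)
open Pool.Agent.Q18.P (NoZeros Order Holo MeanBound excess ratio IsLeading)
open Pool.Agent.Q18.P.EC (Euler product productStar)

/-- the rank of `E_T(ℚ)`, `E_T : y² = x³ + a e_T² x + b e_T³` -/
noncomputable def twistRank (a b : ℤ) {n : ℕ} (e : Fin n → ℤ) (T : Finset (Fin n)) : ℕ :=
  rkK ℚ (a * (∏ i ∈ T, e i) ^ 2) (b * (∏ i ∈ T, e i) ^ 3)

/-- What is known about the twists `E_T` over `ℚ`. -/
structure Known (a b : ℤ) {n : ℕ} (e : Fin n → ℤ) (G : Finset (Fin n) → ℂ → ℂ) (w : Finset (Fin n) → ℕ) : Prop where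
  /-- `G_T` is entire and is the `L`-function of `E_T` without the factors at the primes dividing `2 (4a³ + 27b²) e_T` -/
  lfun : ∀ T, IsLFun (a * (∏ i ∈ T, e i) ^ 2) (b * (∏ i ∈ T, e i) ^ 3) (G T)
  sign : ∀ T, w T = 0 ∨ w T = 1
  /-- the functional equation -/
  parity : ∀ T (m : ℕ), analyticOrderAt (G T) 1 = m → m % 2 = w T
  /-- Gross-Zagier, Kolyvagin -/
  zero : ∀ T, analyticOrderAt (G T) 1 = 0 → twistRank a b e T = 0
  one : ∀ T, analyticOrderAt (G T) 1 = 1 → twistRank a b e T = 1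

/-- **The rank conjecture over multiquadratic fields and windows.** -/
theorem result (a b : ℤ) (hab : 4 * a ^ 3 + 27 * b ^ 2 ≠ 0) (n : ℕ) (e : Fin n → ℤ) (he : Indep e)
    (G : Finset (Fin n) → ℂ → ℂ) (w : Finset (Fin n) → ℕ) (h : Known a b e G w)
    (K : Type) [Field K] [NumberField K] (x : Fin n → K) (hx : ∀ i, x i ^ 2 = (e i : K))
    (hK : IntermediateField.adjoin ℚ (Set.range x) = ⊤) (S : Finset (HeightOneSpectrum (𝓞 K)))
    (hS : ∀ v, v ∉ S → ((6 * (4 * a ^ 3 + 27 * b ^ 2) * ∏ i, e i : ℤ) : 𝓞 K) ∉ v.asIdeal)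
    (F : ℂ → ℂ) (hF : Holo 1 F) (hE : Euler S (a : 𝓞 K) (b : 𝓞 K) F) (δ : ℝ) (h0 : 0 < δ) (h1 : δ < 1) :
    -- (1)
    (∀ κ B : ℝ, (∃ᶠ Y : ℝ in atTop, MeanBound δ (excess (product S (a : 𝓞 K) (b : 𝓞 K)) κ) B Y) →
      NoZeros 1 F ∧ (∃ m : ℤ, Order 1 F m ∧ (m : ℝ) ≤ κ) ∧
      (Nat.card {T // ¬ (analyticOrderAt (G T) 1 = w T ∧ twistRank a b e T = w T)} : ℝ) ≤
        (κ - ((∑ T, w T : ℕ) : ℝ)) / 2 ∧
      (κ < ((∑ T, w T : ℕ) : ℝ) + 2 → Order 1 F (rkK K a b) ∧ rkK K a b = ∑ T, w T)) ∧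
    -- (2)
    (¬ Order 1 F (rkK K a b) → ∀ κ B : ℝ, κ < ((∑ T, w T : ℕ) : ℝ) + 2 →
      ∀ᶠ Y : ℝ in atTop, ¬ MeanBound δ (excess (product S (a : 𝓞 K) (b : 𝓞 K)) κ) B Y) ∧
    (∀ k : ℕ, k ≤ Nat.card {T // ¬ (analyticOrderAt (G T) 1 = w T ∧ twistRank a b e T = w T)} →
      ∀ κ B : ℝ, κ < ((∑ T, w T : ℕ) : ℝ) + 2 * k →
      ∀ᶠ Y : ℝ in atTop, ¬ MeanBound δ (excess (product S (a : 𝓞 K) (b : 𝓞 K)) κ) B Y) ∧
    -- (3)
    (∀ κ : ℝ, ((∑ T, w T : ℕ) : ℝ) ≤ κ → κ < ((∑ T, w T : ℕ) : ℝ) + 2 → List.TFAE [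
      NoZeros 1 F ∧ Order 1 F (rkK K a b) ∧ rkK K a b = ∑ T, w T,
      ∃ B : ℝ, ∃ᶠ Y : ℝ in atTop, MeanBound δ (excess (product S (a : 𝓞 K) (b : 𝓞 K)) κ) B Y,
      ∃ B : ℝ, ∀ᶠ Y : ℝ in atTop, MeanBound δ (excess (product S (a : 𝓞 K) (b : 𝓞 K)) κ) B Y]) ∧
    -- (4)
    (∀ A : ℝ, 0 < A → List.TFAE [
      NoZeros 1 F ∧ rkK K a b = ∑ T, w T ∧ ∃ c : ℂ, IsLeading 1 F (rkK K a b) c ∧ ‖c‖ = A,
      ∀ ε : ℝ, 0 < ε → ∃ᶠ Y : ℝ in atTop,
        MeanBound δ (fun y => |ratio (productStar S (a : 𝓞 K) (b : 𝓞 K)) A ((∑ T, w T : ℕ) : ℝ) y|) ε Y,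
      ∀ ε : ℝ, 0 < ε → ∀ᶠ Y : ℝ in atTop,
        MeanBound δ (fun y => |ratio (productStar S (a : 𝓞 K) (b : 𝓞 K)) A ((∑ T, w T : ℕ) : ℝ) y|) ε Y]) := by
  classical
  have hgood : ∀ v, v ∉ S → Pool.Agent.Q18.P.EC.Good (a : 𝓞 K) (b : 𝓞 K) v := by
    intro v hv h2
    refine hS v hv ?_
    have e1 : ((6 * (4 * a ^ 3 + 27 * b ^ 2) * ∏ i, e i : ℤ) : 𝓞 K) =
        ((∏ i, e i : ℤ) : 𝓞 K) * (6 * (4 * (a : 𝓞 K) ^ 3 + 27 * (b : 𝓞 K) ^ 2)) := by
      push_cast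
      ring
    rw [e1]
    exact v.asIdeal.mul_mem_left _ h2
  have hc := Pool.Agent.Q18.P.EC.one_c
  have L := Pool.Agent.Q18.P.laws hc (Pool.Agent.Q18.P.EC.pure hgood).le hF
    (Pool.Agent.Q18.P.EC.euler hgood hE) h0 h1
  have eP := Pool.Agent.Q18.P.EC.product_eq hgood
  have eS := Pool.Agent.Q18.P.EC.star_eq hgood
  set m : ℕ := ∑ T, w T with hm
  have hord := Pool.Agent.Q18.P.MQ.order_sum hab he h.lfun hx hK hS hF hE
  have hrk : rkK K a b = ∑ T, twistRank a b e T := Pool.Agent.Q18.P.MQ.rank_eq he K x hx hK hab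
  set o : Finset (Fin n) → ℕ := fun T => (analyticOrderAt (G T) 1).toNat with ho
  have hoT : (∀ T, analyticOrderAt (G T) 1 ≠ ⊤) → ∀ T, analyticOrderAt (G T) 1 = (o T : ℕ∞) := fun h5 T =>
    (ENat.natCast_toNat (h5 T)).symm
  have hpar : (∀ T, analyticOrderAt (G T) 1 ≠ ⊤) → ∀ T, o T % 2 = w T := fun h5 T => h.parity T _ (hoT h5 T)
  -- the rank when the order is minimal
  have hmin : ∀ T, analyticOrderAt (G T) 1 = w T → twistRank a b e T = w T := by
    intro T hT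
    rcases h.sign T with h2 | h2
    · rw [h2] at hT ⊢
      exact h.zero T (by exact_mod_cast hT)
    · rw [h2] at hT ⊢
      exact h.one T (by exact_mod_cast hT)
  have hcount : (∀ T, analyticOrderAt (G T) 1 ≠ ⊤) →
      m + 2 * Nat.card {T // ¬ (analyticOrderAt (G T) 1 = w T ∧ twistRank a b e T = w T)} ≤ ∑ T, o T := by
    intro h5
    have hcard : Nat.card {T // ¬ (analyticOrderAt (G T) 1 = w T ∧ twistRank a b e T = w T)} =
        ∑ T, if ¬ (analyticOrderAt (G T) 1 = w T ∧ twistRank a b e T = w T) then 1 else 0 := by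
      rw [Finset.sum_boole, Nat.card_eq_fintype_card, Fintype.card_subtype]
      rfl
    rw [hcard, hm, Finset.mul_sum, ← Finset.sum_add_distrib]
    refine Finset.sum_le_sum fun T _ => ?_
    have h6 := hpar h5 T
    by_cases h7 : analyticOrderAt (G T) 1 = w T ∧ twistRank a b e T = w T
    · rw [if_neg (not_not.2 h7)]
      omega
    · rw [if_pos h7]
      have h8 : o T ≠ w T := by
        intro h9
        have h10 : analyticOrderAt (G T) 1 = w T := by rw [hoT h5 T, h9]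
        exact h7 ⟨h10, hmin T h10⟩
      omega
  -- the least order
  have hleast : ∀ m' : ℤ, Order 1 F m' → m' < (m : ℤ) + 2 → m' = m ∧ rkK K a b = m := by
    intro m' h2 h3
    obtain ⟨h5, h6⟩ := (hord m').1 h2
    have h7 := hcount h5
    have h8 : (((∑ T, o T : ℕ)) : ℤ) = m' := by
      rw [← h6]
      push_cast
      rfl
    have h9 : Nat.card {T // ¬ (analyticOrderAt (G T) 1 = w T ∧ twistRank a b e T = w T)} = 0 := by omega
    have h10 : ∀ T, analyticOrderAt (G T) 1 = w T ∧ twistRank a b e T = w T := by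
      rw [Nat.card_eq_fintype_card, Fintype.card_eq_zero_iff] at h9
      intro T
      by_contra h11
      exact h9.false ⟨T, h11⟩
    have h12 : ∀ T, o T = w T := by
      intro T
      have h13 := (h10 T).1
      rw [hoT h5 T] at h13
      exact_mod_cast h13
    constructor
    · rw [← h8, hm, Finset.sum_congr rfl fun T _ => h12 T]
    · rw [hrk, hm, Finset.sum_congr rfl fun T _ => (h10 T).2]
  have main : ∀ κ : ℝ, (∃ B : ℝ, ∃ᶠ Y : ℝ in atTop, MeanBound δ (excess (product S (a : 𝓞 K) (b : 𝓞 K)) κ) B Y) →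
      NoZeros 1 F ∧ (∃ m' : ℤ, Order 1 F m' ∧ (m' : ℝ) ≤ κ) ∧
      (Nat.card {T // ¬ (analyticOrderAt (G T) 1 = w T ∧ twistRank a b e T = w T)} : ℝ) ≤ (κ - (m : ℝ)) / 2 ∧
      (κ < (m : ℝ) + 2 → Order 1 F (rkK K a b) ∧ rkK K a b = m) := by
    intro κ hB
    rw [eP] at hB
    have t := ((L.upper κ).out 0 1).2 hB
    obtain ⟨hz, m', hm', hle⟩ := t
    refine ⟨hz, ⟨m', hm', hle⟩, ?_, fun hκ => ?_⟩
    · obtain ⟨h5, h6⟩ := (hord m').1 hm'
      have h7 := hcount h5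
      have h8 : (((∑ T, o T : ℕ)) : ℤ) = m' := by
        rw [← h6]
        push_cast
        rfl
      have h9 : ((m + 2 * Nat.card {T // ¬ (analyticOrderAt (G T) 1 = w T ∧ twistRank a b e T = w T)} : ℕ) : ℝ) ≤
          ((∑ T, o T : ℕ) : ℝ) := by exact_mod_cast h7
      have h10 : ((∑ T, o T : ℕ) : ℝ) = (m' : ℝ) := by exact_mod_cast congrArg (fun z : ℤ => (z : ℝ)) h8
      push_cast at h9
      push_cast at h10
      linarith
    · have h3 : (m' : ℝ) < (((m : ℤ) + 2 : ℤ) : ℝ) := by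
        push_cast
        linarith
      obtain ⟨h4, h5⟩ := hleast m' hm' (by exact_mod_cast h3)
      rw [h5, ← h4]
      exact ⟨hm', rfl⟩
  refine ⟨fun κ B hB => main κ ⟨B, hB⟩, fun hn κ B hκ => ?_, fun k hk κ B hκ => ?_, fun κ hκ1 hκ2 => ?_, fun A hA => ?_⟩
  · rw [← Filter.not_frequently]
    exact fun hfr => hn ((main κ ⟨B, hfr⟩).2.2.2 hκ).1
  · rw [← Filter.not_frequently]
    intro hfr
    have h2 := (main κ ⟨B, hfr⟩).2.2.1
    have h3 : (k : ℝ) ≤ (Nat.card {T // ¬ (analyticOrderAt (G T) 1 = w T ∧ twistRank a b e T = w T)} : ℝ) := by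
      exact_mod_cast hk
    linarith
  · have t := L.upper κ
    rw [← eP] at t
    tfae_have 1 → 3 := by
      rintro ⟨hz, ho2, hr⟩
      rw [hr] at ho2
      have h2 : NoZeros 1 F ∧ ∃ m' : ℤ, Order 1 F m' ∧ (m' : ℝ) ≤ κ := ⟨hz, (m : ℤ), ho2, by exact_mod_cast hκ1⟩
      exact (t.out 0 2).1 h2
    tfae_have 3 → 2 := fun h2 => (t.out 2 1).1 h2
    tfae_have 2 → 1 := by
      intro h2
      obtain ⟨hz, -, -, h3⟩ := main κ h2
      exact ⟨hz, h3 hκ2⟩
    tfae_finish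
  · have t := L.lead (m : ℤ) A hA
    rw [← eS] at t
    have hcast : (((m : ℤ) : ℝ)) = ((m : ℕ) : ℝ) := by norm_cast
    rw [hcast] at t
    have hiff : (NoZeros 1 F ∧ rkK K a b = m ∧ ∃ c : ℂ, IsLeading 1 F (rkK K a b) c ∧ ‖c‖ = A) ↔
        (NoZeros 1 F ∧ ∃ c : ℂ, IsLeading 1 F (m : ℤ) c ∧ ‖c‖ = A) := by
      constructor
      · rintro ⟨hz, hr, c, hc1, hc2⟩
        rw [hr] at hc1
        exact ⟨hz, c, hc1, hc2⟩
      · rintro ⟨hz, c, hc1, hc2⟩
        have h2 := hleast (m : ℤ) hc1.1 (by omega)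
        exact ⟨hz, h2.2, c, by rw [h2.2]; exact hc1, hc2⟩
    rw [hiff]
    exact t

end Pool.Agent.Results.MP_32c55d_nt.MultiquadraticWindows
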