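import Pool.Agent.Q6.XM.Full

/-!
# The CM curve `X_0(49)` and its quadratic twists over multiquadratic fields

`E_M` is the quadratic twist by `M` of `X_0(49) : y² + x y = x³ - x² - 2 x - 1`, a curve with complex
multiplication by `ℤ[(1 + √-7) / 2]`. A number `D` is admissible if it is squarefree and all its prime
factors are `≡ 1 mod 4`, and free if there is no obstruction: a divisor `d > 1` of `D` whose prime
factors split in `ℚ(√-7)`, which is a square modulo all the other prime factors of `D` that split in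
`ℚ(√-7)`, and such that for the primes `p ∣ d` the number `D / d` is a square modulo `p` if and only if
`-7` is a fourth power modulo `p`. (Equivalently `E_D(ℚ)` is finite and `Ш(E_D/ℚ)[2] = 0`.)

A pair `(M, K)`, `K = ℚ(√d_1, …, √d_n)` of degree `2ⁿ`, is good if for each of the `2ⁿ` products
`M ∏_{i ∈ T} d_i` the squarefree part is admissible and free. For the good pairs:

* if `M` is admissible (for instance `M = 1`) the Euler product over all the finite places of `K` not
  dividing `7 M` - this is the Hasse-Weil `L`-function `L(E_M/K, s)` if `M` is prime to the `d_i`, since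
  then `K/ℚ` is not ramified at the primes dividing `14 M`, the equation is minimal, with good reduction
  outside `7 M` and additive reduction at the places dividing `7 M` - continues analytically to
  `Re s > 1/2`, its order of vanishing at `s = 1` is `0`, and `E_M(K)` is finite: the order of
  vanishing is the rank;
* for all `M`, the Euler product over the places not dividing `14 M ∏ d_i` is entire and `≠ 0` at
  `s = 1`, and `E_M(K)` is finite.

Exact proportions: let the class consist of the `D ≥ 1`, squarefree, whose prime factors are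
`≡ 1 mod 8` and split in `ℚ(√-7)`, or `≡ 5 mod 8` and inert in `ℚ(√-7)`, and let the family be the
subset `D ≡ 1 mod 8`. For every `K = ℚ(√d_1, …, √d_n)` and `M` of the class, the pair `(M D, K)` is good
for exactly the proportion `c ^ (2ⁿ)` of the `D` of the family, where
`c = ∏_{i ≥ 0} (1 - 2^{-(2i+1)}) = 0.4194…`; and if `(M, K)` is good, then `(M, K(√D))` is good for
exactly the proportion `c ^ (2ⁿ)` of the `D` of the family. So the curve `X_0(49)` satisfies the
conjecture, with rank `0`, over exactly the proportion `c` at least of the quadratic fields `ℚ(√D)` of the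
family, and every good field has good extensions of all degrees `2^m`, with positive proportions.

The proof: `L(E_D, 1) ≠ 0` for the admissible free `D` (`Pool.Agent.Q6.XK`, with the 2-adic valuation of
the `L`-value by Hecke characters and the complete 2-descent); the `L`-function and the rank over a
multiquadratic field (`Pool.Agent.Y73`, `Pool.Agent.Y19`); the joint distribution of the matrices of the
symmetric differences (`Pool.Agent.Y687.JQ`).
-/

set_option autoImplicit false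

open NumberField IsDedekindDomain Filter Topology

namespace Pool.Agent.Results.MP_32c55d_nt.MultiquadraticX049

/-- For `D ≡ 1 mod 4` the quadratic twist by `D` of the elliptic curve
`X_0(49) : y² + x y = x³ - x² - 2 x - 1`:
the curve `y² + x y = x³ - (3 D + 1) / 4 x² - 2 D² x - D³`. -/
def twist (D : ℕ) : WeierstrassCurve ℤ := ⟨1, -((3 * D + 1) / 4), 0, -2 * D ^ 2, -D ^ 3⟩

/-- the curve given by the equation of `W` over the ring `R` -/
abbrev base (W : WeierstrassCurve ℤ) (R : Type) [CommRing R] : WeierstrassCurve R :=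
  W.map (Int.castRingHom R)

/-- The short equation of the twist by an integer `M`: `y² = x³ - 35 M² x - 98 M³`. -/
def short (M : ℤ) (F : Type) [Field F] : WeierstrassCurve F :=
  { a₁ := 0, a₂ := 0, a₃ := 0, a₄ := ((-35 * M ^ 2 : ℤ) : F), a₆ := ((-98 * M ^ 3 : ℤ) : F) }

section

variable {K : Type} [Field K] [NumberField K]

/-- `a_v = N v + 1 - #W(k_v)`, the points over the residue field `k_v` counted with the point at
infinity -/
noncomputable def a (W : WeierstrassCurve ℤ) (v : HeightOneSpectrum (𝓞 K)) : ℤ :=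
  (Ideal.absNorm v.asIdeal : ℤ) - Nat.card {P : (𝓞 K ⧸ v.asIdeal) × (𝓞 K ⧸ v.asIdeal) //
    (base W (𝓞 K ⧸ v.asIdeal)).toAffine.Equation P.1 P.2}

open Classical in
/-- The Euler factor of `L(E_M/K, s)` at `v`: `(1 - a_v N v^(-s) + N v^(1 - 2 s))⁻¹` if `v` does not
divide `7 M` (good reduction), and `1` if `v` divides `7 M` (additive reduction). -/
noncomputable def factor (M : ℕ) (s : ℂ) (v : HeightOneSpectrum (𝓞 K)) : ℂ :=
  if ((7 * M : ℤ) : 𝓞 K) ∈ v.asIdeal then 1
  else (1 - (a (twist M) v : ℂ) * (Ideal.absNorm v.asIdeal : ℂ) ^ (-s) +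
    (Ideal.absNorm v.asIdeal : ℂ) ^ (1 - 2 * s))⁻¹

end

/-- the number `q_v` of elements of the residue field of a finite place `v` of `K` -/
noncomputable def qv (K : Type) [Field K] (v : HeightOneSpectrum (𝓞 K)) : ℕ :=
  Nat.card (𝓞 K ⧸ v.asIdeal)

/-- `q_v` minus the number of the affine points modulo `v` of the short equation of the twist by `M` -/
noncomputable def av (K : Type) [Field K] (M : ℤ) (v : HeightOneSpectrum (𝓞 K)) : ℤ :=
  (qv K v : ℤ) - Nat.card {z : (𝓞 K ⧸ v.asIdeal) × (𝓞 K ⧸ v.asIdeal) //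
    z.2 ^ 2 = z.1 ^ 3 + ((-35 * M ^ 2 : ℤ) : 𝓞 K ⧸ v.asIdeal) * z.1 +
      ((-98 * M ^ 3 : ℤ) : 𝓞 K ⧸ v.asIdeal)}

open Classical in
/-- `F` is entire and is, for `Re s > 3/2`, the `L`-function of the twist by `M` over `K` without the
Euler factors at the places `v ∣ 14 M m` -/
def IsL (K : Type) [Field K] (M m : ℤ) (F : ℂ → ℂ) : Prop :=
  Differentiable ℂ F ∧ ∀ s : ℂ, (3 : ℝ) / 2 < s.re →
    HasProd (fun v : HeightOneSpectrum (𝓞 K) =>
      if ((14 * M * m : ℤ) : 𝓞 K) ∈ v.asIdeal then 1 else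
        (1 - (av K M v : ℂ) * (qv K v : ℂ) ^ (-s) + (qv K v : ℂ) ^ (1 - 2 * s))⁻¹) (F s)

open Classical in
/-- the rank of the group of the points of `W` -/
noncomputable def rank {F : Type} [Field F] (W : WeierstrassCurve F) : ℕ :=
  Module.finrank ℤ W.toAffine.Point

/-! ### The numbers -/

/-- `D` is squarefree and all its prime factors are `1` modulo `4` -/
def Admissible (D : ℕ) : Prop := Squarefree D ∧ ∀ p : ℕ, p.Prime → p ∣ D → p % 4 = 1

/-- the obstructions: `d > 1` divides `D`, its prime factors split in `ℚ(√-7)`, it is a square modulo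
the other prime factors of `D` that split in `ℚ(√-7)`, and for the primes `p ∣ d` the number `D / d` is
a square modulo `p` if and only if `-7` is a fourth power modulo `p` -/
def Obstruction (D d : ℕ) : Prop := d ∣ D ∧ 1 < d ∧
  (∀ p : ℕ, p.Prime → p ∣ d → IsSquare (-7 : ZMod p)) ∧
  (∀ p : ℕ, p.Prime → p ∣ D → ¬ p ∣ d → IsSquare (-7 : ZMod p) → IsSquare (d : ZMod p)) ∧
  ∀ p : ℕ, p.Prime → p ∣ d → (IsSquare ((D / d : ℕ) : ZMod p) ↔ ∃ y : ZMod p, y ^ 4 = -7)

/-- there is no obstruction -/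
def Free (D : ℕ) : Prop := ∀ d, ¬ Obstruction D d

/-- `z` is, up to squares, an admissible number without obstruction -/
def GoodNumber (z : ℤ) : Prop :=
  ∃ (D : ℕ) (k : ℤ), Admissible D ∧ Free D ∧ k ≠ 0 ∧ z = D * k ^ 2

/-- `d_1, …, d_n` are independent modulo squares: `ℚ(√d_1, …, √d_n)` has degree `2ⁿ` -/
def Independent {n : ℕ} (d : Fin n → ℤ) : Prop :=
  ∀ T : Finset (Fin n), T.Nonempty → ¬ IsSquare (∏ i ∈ T, d i)

/-- the pairs of `M` and `ℚ(√d_1, …, √d_n)`, of degree `2ⁿ`, such that all the numbers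
`M ∏_{i ∈ T} d_i` are good -/
def GoodPair {n : ℕ} (M : ℤ) (d : Fin n → ℤ) : Prop :=
  Independent d ∧ ∀ T : Finset (Fin n), GoodNumber (M * ∏ i ∈ T, d i)

/-- `K = ℚ(√d_1, …, √d_n)` -/
def IsMultiquadratic {n : ℕ} (d : Fin n → ℤ) (K : Type) [Field K] [NumberField K] : Prop :=
  ∃ x : Fin n → K, (∀ i, x i ^ 2 = (d i : K)) ∧ IntermediateField.adjoin ℚ (Set.range x) = ⊤

/-- `D` is squarefree, its prime factors are `1` modulo `8` and split in `ℚ(√-7)`, or `5` modulo `8` and
inert in `ℚ(√-7)` -/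
def Class (D : ℕ) : Prop := Squarefree D ∧ ∀ p : ℕ, p.Prime → p ∣ D →
  (p % 8 = 1 ∧ (p % 7 = 1 ∨ p % 7 = 2 ∨ p % 7 = 4)) ∨
  (p % 8 = 5 ∧ (p % 7 = 3 ∨ p % 7 = 5 ∨ p % 7 = 6))

/-- `z` is in the class up to squares -/
def InClass (z : ℤ) : Prop := ∃ (D : ℕ) (k : ℤ), Class D ∧ k ≠ 0 ∧ z = D * k ^ 2

/-- the family: the numbers of the class which are `1` modulo `8` -/
def Family (D : ℕ) : Prop := Class D ∧ D % 8 = 1

/-- the proportion `(1 - 1/2) (1 - 1/8) (1 - 1/32) ⋯` -/
noncomputable def c : ℝ := ∏' i : ℕ, (1 - (1 / 2 : ℝ) ^ (2 * i + 1))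

open Classical in
/-- the proportion of the `D ≤ X` with `P D` among those of the family -/
noncomputable def prop (P : ℕ → Prop) (X : ℕ) : ℝ :=
  (((Finset.Icc 1 X).filter fun D : ℕ => Family D ∧ P D).card : ℝ) /
    (((Finset.Icc 1 X).filter fun D : ℕ => Family D).card : ℝ)

/-- `E_D(ℚ)` is finite and `Ш(E_D/ℚ)` has no element of order two -/
def RankZeroShaTwo (D : ℤ) : Prop :=
  Finite (short D ℚ).toAffine.Point ∧
    ∀ x : Pool.Agent.TH841.SH.D.Sha (short D ℚ), 2 • x = 0 → x = 0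

section proof

open Pool.Agent.Q6

lemma fam_iff (D : ℕ) : Family D ↔ XK.Fam D := by
  unfold Family Class XK.Fam
  tauto

lemma good_iff (z : ℤ) : GoodNumber z ↔ XM.Gz z := Iff.rfl

lemma pair_iff {n : ℕ} (M : ℤ) (d : Fin n → ℤ) : GoodPair M d ↔ (XM.Ind d ∧ XM.GO d M) := Iff.rfl

lemma class_CL {D : ℕ} (h : Class D) : XM.CL D.primeFactors := by
  intro p hp
  obtain ⟨k1, k2, -⟩ := Nat.mem_primeFactors.1 hp
  exact ⟨k1, h.2 p k1 k2⟩

lemma inClass {z : ℤ} (h : InClass z) : XM.Cz z := by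
  obtain ⟨D, k, hD, hk, rfl⟩ := h
  refine ⟨D.primeFactors, k, class_CL hD, hk, ?_⟩
  rw [XM.pf_CL hD.1 (class_CL hD)]

lemma fac_eq {K : Type} [Field K] [NumberField K] (M : ℕ) (s : ℂ) :
    factor (K := K) M s = XM.fM M s := rfl

open Classical in
lemma prop_eq (P : ℕ → Prop) (X : ℕ) : prop P X =
    (((Finset.Icc 1 X).filter fun D : ℕ => XK.Fam D ∧ P D).card : ℝ) /
    (((Finset.Icc 1 X).filter fun D : ℕ => XK.Fam D).card : ℝ) := by
  unfold prop
  have e1 : ((Finset.Icc 1 X).filter fun D : ℕ => Family D ∧ P D) =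
      (Finset.Icc 1 X).filter fun D : ℕ => XK.Fam D ∧ P D :=
    Finset.filter_congr fun D _ => by rw [fam_iff]
  have e2 : ((Finset.Icc 1 X).filter fun D : ℕ => Family D) =
      (Finset.Icc 1 X).filter fun D : ℕ => XK.Fam D :=
    Finset.filter_congr fun D _ => by rw [fam_iff]
  rw [e1, e2]

lemma isL_iff {K : Type} [Field K] [NumberField K] {M m : ℤ} (F : ℂ → ℂ) :
    IsL K M m F ↔ Pool.Agent.Y19.QT.IsLFunK K (-35 * M ^ 2) (-98 * M ^ 3) m F := by
  classical
  have key : ∀ v : HeightOneSpectrum (𝓞 K), ((14 * M * m : ℤ) : 𝓞 K) ∈ v.asIdeal ↔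
      ((2 * (4 * (-35 * M ^ 2) ^ 3 + 27 * (-98 * M ^ 3) ^ 2) * m : ℤ) : 𝓞 K) ∈ v.asIdeal := by
    intro v
    have : v.asIdeal.IsPrime := v.isPrime
    constructor
    · intro h1
      have e : ((2 * (4 * (-35 * M ^ 2) ^ 3 + 27 * (-98 * M ^ 3) ^ 2) * m : ℤ) : 𝓞 K) =
          ((12544 * M ^ 5 : ℤ) : 𝓞 K) * ((14 * M * m : ℤ) : 𝓞 K) := by
        rw [← Int.cast_mul]
        congr 1
        ring
      rw [e]
      exact Ideal.mul_mem_left _ _ h1
    · intro h1
      refine Ideal.IsPrime.mem_of_pow_mem this 9 ?_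
      have e : ((14 * M * m : ℤ) : 𝓞 K) ^ 9 =
          ((117649 * M ^ 3 * m ^ 8 : ℤ) : 𝓞 K) *
            ((2 * (4 * (-35 * M ^ 2) ^ 3 + 27 * (-98 * M ^ 3) ^ 2) * m : ℤ) : 𝓞 K) := by
        rw [← Int.cast_mul, ← Int.cast_pow]
        congr 1
        ring
      rw [e]
      exact Ideal.mul_mem_left _ _ h1
  unfold IsL Pool.Agent.Y19.QT.IsLFunK
  simp only [key]
  rfl

lemma rank_zero {F : Type} [Field F] {W : WeierstrassCurve F} (h : Finite W.toAffine.Point) :
    rank W = 0 := by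
  classical
  unfold rank
  exact XM.finrank_zero h

lemma good_one : GoodPair 1 (![] : Fin 0 → ℤ) := by
  refine ⟨fun T hT => ?_, fun T => ?_⟩
  · obtain ⟨i, -⟩ := hT
    exact i.elim0
  · refine ⟨1, 1, ⟨squarefree_one, fun p hp h => ?_⟩, fun d hd => ?_, one_ne_zero, ?_⟩
    · exact absurd (Nat.dvd_one.1 h) hp.one_lt.ne'
    · have := Nat.dvd_one.1 hd.1
      have := hd.2.1
      omega
    · have : T = ∅ := Finset.eq_empty_of_isEmpty T
      rw [this]
      simp

end proof

/-- **The theorem.** -/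
theorem result :
    (∀ (n M : ℕ) (d : Fin n → ℤ), Admissible M → GoodPair M d →
      ∀ (K : Type) [Field K] [NumberField K], IsMultiquadratic d K →
      Module.finrank ℚ K = 2 ^ n ∧ Finite (base (twist M) K).toAffine.Point ∧
      ∃ L : ℂ → ℂ, (∀ s : ℂ, 1 / 2 < s.re → AnalyticAt ℂ L s) ∧
        (∀ s : ℂ, 3 / 2 < s.re → HasProd (factor (K := K) M s) (L s)) ∧ L 1 ≠ 0 ∧
        analyticOrderAt L 1 = rank (base (twist M) K)) ∧
    (∀ (n : ℕ) (M : ℤ) (d : Fin n → ℤ), GoodPair M d →
      ∀ (K : Type) [Field K] [NumberField K], IsMultiquadratic d K →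
      Finite (short M K).toAffine.Point ∧ ∃ F : ℂ → ℂ, IsL K M (∏ i, d i) F ∧ F 1 ≠ 0) ∧
    (∀ D : ℕ, Admissible D → (Free D ↔ RankZeroShaTwo D)) ∧
    (∀ (n : ℕ) (M : ℤ) (d : Fin n → ℤ), Independent d → (∀ i, InClass (d i)) → InClass M →
      Tendsto (prop fun D => GoodPair (M * D) d) atTop (𝓝 (c ^ 2 ^ n))) ∧
    (∀ (n : ℕ) (M : ℤ) (d : Fin n → ℤ), GoodPair M d → (∀ i, InClass (d i)) → InClass M →
      Tendsto (prop fun D => GoodPair M (Fin.snoc d (D : ℤ) : Fin (n + 1) → ℤ)) atTop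
        (𝓝 (c ^ 2 ^ n))) ∧
    GoodPair 1 (![] : Fin 0 → ℤ) ∧ 0.4194 < c ∧ c < 0.4195 := by
  classical
  refine ⟨fun n M d hM hd K _ _ ⟨x, hx, hK⟩ => ?_, fun n M d hd K _ _ ⟨x, hx, hK⟩ => ?_,
    fun D hD => ?_, fun n M d hi hd hM => ?_, fun n M d hg hd hM => ?_, good_one,
    Pool.Agent.Y948.CQ.t_C2.2.2.2.1, Pool.Agent.Y948.CQ.t_C2.2.2.2.2⟩
  · have h1 := Pool.Agent.Q6.XM.field_inc hd.1 hd.2 K x hx hK
    have h2 := Pool.Agent.Q6.XM.finite_tw (K := K) hM h1.2
    obtain ⟨L, h3, h4, h5⟩ := Pool.Agent.Q6.XM.field_full hM hd.1 hd.2 K x hx hK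
    refine ⟨?_, h2, L, h3, h4, h5, ?_⟩
    · have := Pool.Agent.Y73.QMQ1.gal_of hx hK
      rw [← IsGalois.card_aut_eq_finrank]
      exact Pool.Agent.Y73.QMQ1.card_gal hd.1 hx hK
    · have h6 : rank (base (twist M) K) = 0 := rank_zero h2
      rw [h6, Nat.cast_zero]
      exact (h3 1 (by norm_num)).analyticOrderAt_eq_zero.2 h5
  · obtain ⟨⟨F, h1, h2⟩, h3⟩ := Pool.Agent.Q6.XM.field_inc hd.1 hd.2 K x hx hK
    exact ⟨h3, F, (isL_iff F).2 h1, h2⟩
  · have h := Pool.Agent.Q6.XK.triv_crit hD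
    refine h.symm.trans (and_congr Iff.rfl (forall_congr' fun x => ?_))
    rw [two_nsmul]
    rfl
  · have h := Pool.Agent.Q6.XM.prop_field hi (fun i => inClass (hd i)) (inClass hM)
    refine h.congr fun X => ?_
    rw [prop_eq]
    congr 3
    refine Finset.filter_congr fun D _ => and_congr_right fun _ => ?_
    exact ⟨fun h => ⟨hi, h⟩, fun h => h.2⟩
  · have h := Pool.Agent.Q6.XM.prop_ext hg.1 (fun i => inClass (hd i)) (inClass hM) hg.2
    refine h.congr fun X => ?_
    rw [prop_eq]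
    congr 3
    exact Finset.filter_congr fun D _ => Iff.rfl

end Pool.Agent.Results.MP_32c55d_nt.MultiquadraticX049
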