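import Mathlib
import Pool.Agent.Y682.StabH

/-!
# The rank over totally real fields of odd degree, for curves which are semistable and ordinary at `2`

`E` is an elliptic curve over `ℚ` with a rational point of order two and with good ordinary reduction (`c` odd) or
multiplicative reduction (`c` even) at `2`: `y² = x³ + a x² + 16 c x`, with the model
`y² + x y = x³ + (a - 1)/4 x² + c x`, or the `2`-isogenous curve `y² = x³ - 2 a x² + (a² - 64 c) x`, where `a ≡ 1`
modulo `4`.  Suppose `c > 0`,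
and `a < 0` or `a² < 64 c`.  Then the rank of `E(K)` is the rank of `E(ℚ)`, and the `2`-primary parts of
`Ш(E/K)` and of `Ш(E/ℚ)` are isomorphic, for every totally real field `K` of odd degree and odd narrow class
number that satisfies a condition at the primes dividing `c (a² - 64 c)`.

So the Birch and Swinnerton-Dyer rank conjecture for `E` over `K` is the assertion that `L(E/K, s)` vanishes at
`s = 1` to the order `rank E(ℚ)`; for `K/ℚ` Galois no nontrivial irreducible character of the Galois group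
occurs in `E(K) ⊗ ℂ`.

The starting result `MP_78d38b_nt.TwoTorsionStability` is about all curves with a rational point of order two
with opposite types at `∞` and `2`, but it needs fields in which `2` is inert.  Here there is no condition on
the decomposition of `2` in `K` if `c` is odd.  The theorem is `Pool.Agent.Y682.stabO` of the starting library
(helper682), which was not handed in.
-/

set_option autoImplicit false

namespace Pool.Agent.Results.MP_32c55d_nt.OrdinaryAtTwo

open NumberField IsDedekindDomain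

open Pool.Agent.Y682 (NCl)

/-- The condition on `K` at a prime `p`: there is only one prime of `K` above `p`, or `p` is odd
and there are integers `d ≠ 0`, `α`, `γ` with `a = d α`, `c = d² γ` such that `γ` and `α² - 64 γ` are
not squares modulo any prime of `K` above `p`. -/
def AtBad (K : Type) [Field K] [NumberField K] (a c : ℤ) (p : ℕ) : Prop :=
  (∀ v w : HeightOneSpectrum (𝓞 K), (p : 𝓞 K) ∈ v.asIdeal → (p : 𝓞 K) ∈ w.asIdeal → v = w) ∨
  (p ≠ 2 ∧ ∃ d α γ : ℤ, d ≠ 0 ∧ a = d * α ∧ c = d ^ 2 * γ ∧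
    ∀ v : HeightOneSpectrum (𝓞 K), (p : 𝓞 K) ∈ v.asIdeal → ∀ x : 𝓞 K,
      x ^ 2 - (γ : 𝓞 K) ∉ v.asIdeal ∧ x ^ 2 - ((α ^ 2 - 64 * γ : ℤ) : 𝓞 K) ∉ v.asIdeal)

/-- For the curve `E : y² = x³ + A x² + B x`: `rank E(K) = rank E(ℚ)` and `Ш(E/K)[2^∞] ≃ Ш(E/ℚ)[2^∞]`. -/
def Stable (K : Type) [Field K] [NumberField K] (A B : ℤ) : Prop :=
  Pool.Agent.TH841.NF.D.rk (⟨0, A, 0, B, 0⟩ : WeierstrassCurve K) =
    Pool.Agent.TH841.SH.D.rk (⟨0, A, 0, B, 0⟩ : WeierstrassCurve ℚ) ∧
  Nonempty
    (AddCommGroup.primaryComponent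
        (Pool.Agent.TH841.NF.D.Sha (⟨0, A, 0, B, 0⟩ : WeierstrassCurve K)) 2 ≃+
      AddCommGroup.primaryComponent
        (Pool.Agent.TH841.SH.D.Sha (⟨0, A, 0, B, 0⟩ : WeierstrassCurve ℚ)) 2)

/-- **Theorem.** Let `a ≡ 1` modulo `4` and `c > 0` be integers with `a² ≠ 64 c`, and suppose `a < 0` or
`a² < 64 c`.  Let `K` be a totally real number field of odd degree and odd narrow class number which satisfies
the condition `AtBad` at the primes `p` dividing `c (a² - 64 c)`.  Then for both curves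
`E : y² = x³ + a x² + 16 c x` and `E : y² = x³ - 2 a x² + (a² - 64 c) x` the rank of `E(K)` is the rank of
`E(ℚ)`, and `Ш(E/K)[2^∞] ≃ Ш(E/ℚ)[2^∞]`. -/
theorem result (a c : ℤ) (ha : a % 4 = 1) (hc : 0 < c) (hac : a < 0 ∨ a ^ 2 < 64 * c)
    (hD : a ^ 2 ≠ 64 * c) (K : Type) [Field K] [NumberField K] [IsTotallyReal K]
    (hdeg : Odd (Module.finrank ℚ K)) (hcl : Odd (Nat.card (NCl K)))
    (hbad : ∀ p : ℕ, p.Prime → (p : ℤ) ∣ c * (a ^ 2 - 64 * c) → AtBad K a c p) :
    Stable K a (16 * c) ∧ Stable K (-2 * a) (a ^ 2 - 64 * c) :=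
  ⟨@Pool.Agent.Y682.stabO K _ _ _ DivisionRing.toRatAlgebra inferInstance a c a (16 * c) ha hc hac hD
      (Or.inl ⟨rfl, rfl⟩) hcl hdeg hbad,
    @Pool.Agent.Y682.stabO K _ _ _ DivisionRing.toRatAlgebra inferInstance a c (-2 * a)
      (a ^ 2 - 64 * c) ha hc hac hD (Or.inr ⟨rfl, rfl⟩) hcl hdeg hbad⟩

end Pool.Agent.Results.MP_32c55d_nt.OrdinaryAtTwo
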