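import Pool.Agent.TH942.ES.NF
import Pool.Agent.TH270.SH.Law

/-!
# Analytic continuation and rank of elliptic curves over number fields from finite sums over primes

Let `K` be a number field, `E : y² = x³ + a x + b` an elliptic curve with `a, b ∈ 𝓞_K`, and
`L(s) = ∏_v (1 - a_v Nv^(-s) + Nv^(1-2s))⁻¹` (`Re s > 3/2`) its `L`-series, the product over the primes `v ∤ 6Δ`,
`a_v = Nv - N_v`, `N_v` the number of affine points modulo `v`, so that `#E(k_v) = N_v + 1`.  (The finitely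
many Euler factors left out have neither zeros nor poles for `Re s ≥ 1`.)  For `K ≠ ℚ` it is in general not
known that `L` can be continued to any point of the line `Re s = 1`, and the conjecture of Birch and
Swinnerton-Dyer for `E` contains the existence of the continuation.

For `ρ > 1` let `w_ρ(u) = (2πi)⁻¹ ∫_{Re z = 1} exp (z - u z^(1/ρ)) dz/z` (a real function, `w_ρ(0) = 1`, decreasing
faster than exponentially; for `ρ → 1` it tends to the sharp cut-off at `u = 1`), and for `ρ' > ρ`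

`S(Y) = ∑_{Nv ≤ exp ((log Y)^ρ')} w_ρ(log Nv / log Y) log ((N_v + 1)/Nv)`,

a FINITE sum: the logarithm of a smoothed Birch and Swinnerton-Dyer product.  No hypothesis on the
`L`-function is made in the following statements.

1. `S(Y) = O(exp (ε (log Y)^ρ))` for every `ε > 0` if and only if `L` has an analytic continuation without
  zeros to the sector `|arg (s - 1)| < π/(2ρ)`.
2. This holds for all `1 < ρ < ρ'` if and only if `L` has an analytic continuation without zeros to the half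
  plane `Re s > 1`.
3. If `S(Y) = m log log Y + O(1)` for one pair `ρ < ρ'` and a real number `m`, then `L` has an analytic
  continuation without zeros to the sector with `|L(1 + x)| ≍ x^m` (`0 < x ≤ 1`).
4. If `L` is continued to the half plane `Re s > 1` and the point `1`, then for every `r`, for instance the
  rank of `E(K)`, the following are equivalent: `ord_{s=1} L = r` and `L` has no zeros in the sector;
  `S(Y) = r log log Y + O(1)`; `S(Y) / log log Y → r`.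
5. All these laws together (all `1 < ρ < ρ'`) are equivalent to `ord_{s=1} L = r` and the absence of zeros with
  `Re s > 1`, and they imply the continuation to `Re s > 1` with `|L(1 + x)| ≍ x^r`.

Goldfeld (1982) showed that the law with the sharp cut-off implies that there are no zeros with `Re s > 1`;
there the converse is open.  The transform with the kernel `exp (-u z^(1/ρ))` turns the half plane into the
sector, and the law becomes equivalent to the continuation to the sector.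

The proofs are in `Pool.Agent.TH942.ES`, `Pool.Agent.TH942.SL` and `Pool.Agent.TH270.SH`.
-/

set_option autoImplicit false

namespace Pool.Agent.Results.MP_32c55d_nt.SectorialLaw

open Filter Topology Set Complex NumberField IsDedekindDomain

variable {K : Type} [Field K] [NumberField K]

open Classical in
/-- The rank of the group `E(K)` of `E : y² = x³ + a x + b`. -/
noncomputable def rank (a b : 𝓞 K) : ℕ :=
  Module.finrank ℤ (WeierstrassCurve.toAffine
    ({ a₁ := 0, a₂ := 0, a₃ := 0, a₄ := (a : K), a₆ := (b : K) } : WeierstrassCurve K)).Point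

/-- The prime `v` does not divide `6 (4 a³ + 27 b²)`. -/
def Good (a b : 𝓞 K) (v : HeightOneSpectrum (𝓞 K)) : Prop :=
  6 * (4 * a ^ 3 + 27 * b ^ 2) ∉ v.asIdeal

/-- `Nv` -/
noncomputable def norm (v : HeightOneSpectrum (𝓞 K)) : ℕ := Ideal.absNorm v.asIdeal

/-- `N_v`: the number of affine points of `y² = x³ + a x + b` modulo `v`. -/
noncomputable def points (a b : 𝓞 K) (v : HeightOneSpectrum (𝓞 K)) : ℕ :=
  Nat.card {P : (𝓞 K ⧸ v.asIdeal) × (𝓞 K ⧸ v.asIdeal) //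
    P.2 ^ 2 = P.1 ^ 3 + Ideal.Quotient.mk v.asIdeal a * P.1 + Ideal.Quotient.mk v.asIdeal b}

/-- The Euler factor `(1 - a_v Nv^(-s) + Nv^(1-2s))⁻¹`, `a_v = Nv - N_v`. -/
noncomputable def factor (a b : 𝓞 K) (v : HeightOneSpectrum (𝓞 K)) (s : ℂ) : ℂ :=
  (1 - ((norm v : ℂ) - points a b v) * (norm v : ℂ) ^ (-s) + (norm v : ℂ) ^ (1 - 2 * s))⁻¹

/-- The `L`-series of `E/K` (for `Re s > 3/2`), the product over the primes `v ∤ 6Δ`. -/
noncomputable def Lfun (a b : 𝓞 K) (s : ℂ) : ℂ :=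
  ∏' v : {v : HeightOneSpectrum (𝓞 K) // Good a b v}, factor a b v.1 s

/-- The weight `w_ρ(u) = (2π)⁻¹ ∫ Re (exp (z - u z^(1/ρ)) / z) dt`, `z = 1 + it`. -/
noncomputable def weight (ρ u : ℝ) : ℝ :=
  (2 * Real.pi)⁻¹ * ∫ t : ℝ, (exp ((1 + t * I) - u * (1 + t * I) ^ ((ρ⁻¹ : ℝ) : ℂ)) / (1 + t * I)).re

/-- `S(Y)`, a finite sum. -/
noncomputable def mean (a b : 𝓞 K) (ρ ρ' Y : ℝ) : ℝ :=
  ∑ᶠ (v : {v : HeightOneSpectrum (𝓞 K) // Good a b v})
    (_ : (norm v.1 : ℝ) ≤ Real.exp (Real.log Y ^ ρ')),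
    weight ρ (Real.log (norm v.1) / Real.log Y) *
      Real.log (((points a b v.1 : ℝ) + 1) / norm v.1)

/-- Slow growth: `S(Y) = O(exp (ε (log Y)^ρ))` for every `ε > 0`. -/
def Slow (a b : 𝓞 K) (ρ ρ' : ℝ) : Prop :=
  ∀ ε : ℝ, 0 < ε → ∃ C : ℝ, ∀ᶠ Y : ℝ in atTop,
    |mean a b ρ ρ' Y| ≤ C * Real.exp (ε * Real.log Y ^ ρ)

/-- The law `S(Y) = m log log Y + O(1)`. -/
def Law (a b : 𝓞 K) (ρ ρ' m : ℝ) : Prop :=
  ∃ C : ℝ, 0 ≤ C ∧ ∀ᶠ Y : ℝ in atTop, |mean a b ρ ρ' Y - m * Real.log (Real.log Y)| ≤ C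

/-- The open sector `|arg (s - 1)| < π/(2ρ)` with vertex `1`. -/
def Sector (ρ : ℝ) : Set ℂ := {s | s ≠ 1 ∧ |arg (s - 1)| < Real.pi / (2 * ρ)}

/-- `F` is an analytic continuation of the `L`-series to `U`, without zeros. -/
def ZeroFree (a b : 𝓞 K) (U : Set ℂ) (F : ℂ → ℂ) : Prop :=
  (∀ s : ℂ, s ∈ U ∨ 3 / 2 < s.re → DifferentiableAt ℂ F s ∧ F s ≠ 0) ∧
    ∀ s : ℂ, 3 / 2 < s.re → F s = Lfun a b s

/-- `|F(1 + x)| ≍ x^m` for `0 < x ≤ 1`. -/
def Size (F : ℂ → ℂ) (m : ℝ) : Prop :=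
  ∃ A B : ℝ, 0 < A ∧ 0 < B ∧ ∀ x : ℝ, 0 < x → x ≤ 1 →
    A * x ^ m ≤ ‖F (1 + x)‖ ∧ ‖F (1 + x)‖ ≤ B * x ^ m

/-- `F` is an analytic continuation of the `L`-series to the half plane `Re s > 1` and to the point
`s = 1`. -/
def Continues (a b : 𝓞 K) (F : ℂ → ℂ) : Prop :=
  (∀ s : ℂ, 1 < s.re → DifferentiableAt ℂ F s) ∧ AnalyticAt ℂ F 1 ∧
    ∀ s : ℂ, 3 / 2 < s.re → F s = Lfun a b s

/-! ### translation -/

open Pool.Agent.TH942.ES (GoodV alV SrE curve_sys curve_cv curve_factor zv xv Con)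
open Pool.Agent.H921R2.TatePole (nm)

/-- the norms -/
noncomputable abbrev NN (a b : 𝓞 K) : {v : HeightOneSpectrum (𝓞 K) // GoodV a b v} → ℕ :=
  fun v => nm v.1

theorem mean_eq (a b : 𝓞 K) (ρ ρ' Y : ℝ) : mean a b ρ ρ' Y = SrE (NN a b) (alV a b) ρ ρ' Y := by
  unfold mean SrE
  refine finsum_congr fun v => finsum_congr fun _ => ?_
  rw [curve_cv v]
  rfl

theorem slow_eq (a b : 𝓞 K) (ρ ρ' : ℝ) :
    Slow a b ρ ρ' ↔ Pool.Agent.TH270.SH.Slow (NN a b) (alV a b) ρ ρ' := by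
  unfold Slow Pool.Agent.TH270.SH.Slow
  simp only [mean_eq]

theorem law_eq (a b : 𝓞 K) (ρ ρ' m : ℝ) :
    Law a b ρ ρ' m ↔ Pool.Agent.TH270.SH.Gr (NN a b) (alV a b) ρ ρ' m := by
  unfold Law Pool.Agent.TH270.SH.Gr
  simp only [mean_eq]

theorem lfun_eq (a b : 𝓞 K) (s : ℂ) : Lfun a b s = Pool.Agent.TH942.ES.LE (NN a b) (alV a b) (s - 1) := by
  unfold Lfun Pool.Agent.TH942.ES.LE
  refine tprod_congr fun v => ?_
  have h := curve_factor (a := a) (b := b) v (s - 1)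
  rw [add_sub_cancel] at h
  exact h.symm

theorem hasProd (a b : 𝓞 K) {s : ℂ} (hs : 3 / 2 < s.re) :
    HasProd (fun v : {v : HeightOneSpectrum (𝓞 K) // Good a b v} => factor a b v.1 s)
      (Lfun a b s) := by
  have h1 := (curve_sys a b).hasProd (s := s - 1) (by
    rw [Complex.sub_re, Complex.one_re]; linarith)
  have h2 : (fun v : {v : HeightOneSpectrum (𝓞 K) // Good a b v} => factor a b v.1 s) =
      fun v => ∏ i, (1 - zv (NN a b) (alV a b) v i * xv (NN a b) v (s - 1))⁻¹ := by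
    funext v
    have h := curve_factor (a := a) (b := b) v (s - 1)
    rw [add_sub_cancel] at h
    exact h.symm
  unfold Lfun
  rw [h2]
  exact h1.multipliable.hasProd

theorem zf_up {a b : 𝓞 K} {U : Set ℂ} {G : ℂ → ℂ}
    (h : Pool.Agent.TH270.SH.ZF (NN a b) (alV a b) {s | 1 + s ∈ U} G) :
    ZeroFree a b U fun s => G (s - 1) := by
  obtain ⟨h1, h2⟩ := h
  refine ⟨fun s hs => ?_, fun s hs => ?_⟩
  · have h3 : s - 1 ∈ {s | 1 + s ∈ U} ∨ 1 / 2 < (s - 1).re := by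
      rcases hs with hs | hs
      · left
        rw [Set.mem_ofPred_eq, add_sub_cancel]
        exact hs
      · right
        rw [Complex.sub_re, Complex.one_re]
        linarith
    obtain ⟨h4, h5⟩ := h1 _ h3
    exact ⟨DifferentiableAt.comp s (f := fun s : ℂ => s - 1) h4 (by fun_prop), h5⟩
  · rw [lfun_eq]
    exact h2 _ (by rw [Complex.sub_re, Complex.one_re]; linarith)

theorem zf_down {a b : 𝓞 K} {U : Set ℂ} {F : ℂ → ℂ} (h : ZeroFree a b U F) :
    Pool.Agent.TH270.SH.ZF (NN a b) (alV a b) {s | 1 + s ∈ U} fun s => F (1 + s) := by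
  obtain ⟨h1, h2⟩ := h
  refine ⟨fun s hs => ?_, fun s hs => ?_⟩
  · have h3 : 1 + s ∈ U ∨ 3 / 2 < (1 + s).re := by
      rcases hs with hs | hs
      · exact Or.inl hs
      · right
        rw [Complex.add_re, Complex.one_re]
        linarith
    obtain ⟨h4, h5⟩ := h1 _ h3
    exact ⟨DifferentiableAt.comp s (f := fun s : ℂ => 1 + s) h4 (by fun_prop), h5⟩
  · show F (1 + s) = _
    rw [h2 _ (by rw [Complex.add_re, Complex.one_re]; linarith), lfun_eq, add_sub_cancel_left]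

theorem sector_eq (ρ : ℝ) : {s | 1 + s ∈ Sector ρ} = Pool.Agent.TH942.SL.Sect ρ := by
  ext s
  unfold Sector Pool.Agent.TH942.SL.Sect
  simp only [Set.mem_ofPred_eq, add_sub_cancel_left, ne_eq, add_eq_left]

theorem half_eq : {s : ℂ | 1 + s ∈ {s : ℂ | 1 < s.re}} = {s | 0 < s.re} := by
  ext s
  simp

theorem size_up {G : ℂ → ℂ} {m : ℝ} (h : Pool.Agent.TH270.SH.Size G m) :
    Size (fun s => G (s - 1)) m := by
  obtain ⟨A, B, hA, hB, h⟩ := h
  refine ⟨A, B, hA, hB, fun x hx hx1 => ?_⟩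
  simp only [add_sub_cancel_left]
  exact h x hx hx1

theorem con {a b : 𝓞 K} {F : ℂ → ℂ} (h : Continues a b F) :
    Con (NN a b) (alV a b) (fun s => F (1 + s)) where
  Ψd := fun s hs => by
    refine DifferentiableAt.comp s (f := fun s : ℂ => 1 + s) (h.1 _ ?_) (by fun_prop)
    rw [Complex.add_re, Complex.one_re]
    linarith
  prod := fun s hs => by
    have h1 := hasProd a b (s := 1 + s) (by rw [Complex.add_re, Complex.one_re]; linarith)
    rw [← h.2.2 _ (by rw [Complex.add_re, Complex.one_re]; linarith)] at h1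
    refine (congrArg (fun g => HasProd g (F (1 + s))) (funext fun v => ?_)).mp h1
    have h := curve_factor (a := a) (b := b) v s
    exact h.symm

theorem ana {a b : 𝓞 K} {F : ℂ → ℂ} (h : Continues a b F) :
    AnalyticAt ℂ (fun s => F (1 + s)) 0 := by
  have h1 : AnalyticAt ℂ (fun s : ℂ => 1 + s) 0 := by fun_prop
  exact AnalyticAt.fun_comp (f := fun s : ℂ => 1 + s) (by simpa using h.2.1) h1

theorem order_eq (F : ℂ → ℂ) :
    analyticOrderAt (fun s => F (1 + s)) 0 = analyticOrderAt F 1 := by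
  have h1 : AnalyticAt ℂ (fun s : ℂ => 1 + s) 0 := by fun_prop
  have h2 : deriv (fun s : ℂ => 1 + s) 0 ≠ 0 := by simp
  have h3 := analyticOrderAt_comp_of_deriv_ne_zero (f := F) h1 h2
  simpa [Function.comp_def] using h3

/-- **Continuation and order from finite sums over the primes.** -/
theorem result (a b : 𝓞 K) (_hΔ : 4 * a ^ 3 + 27 * b ^ 2 ≠ 0) :
    (∀ s : ℂ, 3 / 2 < s.re →
      HasProd (fun v : {v : HeightOneSpectrum (𝓞 K) // Good a b v} => factor a b v.1 s)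
        (Lfun a b s)) ∧
    (∀ ρ ρ' : ℝ, 1 < ρ → ρ < ρ' → (Slow a b ρ ρ' ↔ ∃ F : ℂ → ℂ, ZeroFree a b (Sector ρ) F)) ∧
    ((∀ ρ ρ' : ℝ, 1 < ρ → ρ < ρ' → Slow a b ρ ρ') ↔
      ∃ F : ℂ → ℂ, ZeroFree a b {s | 1 < s.re} F) ∧
    (∀ ρ ρ' m : ℝ, 1 < ρ → ρ < ρ' → Law a b ρ ρ' m →
      ∃ F : ℂ → ℂ, ZeroFree a b (Sector ρ) F ∧ Size F m) ∧
    ((∀ ρ ρ' : ℝ, 1 < ρ → ρ < ρ' → Law a b ρ ρ' (rank a b)) →
      ∃ F : ℂ → ℂ, ZeroFree a b {s | 1 < s.re} F ∧ Size F (rank a b)) ∧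
    ∀ F : ℂ → ℂ, Continues a b F →
      (∀ ρ ρ' : ℝ, 1 < ρ → ρ < ρ' → ∀ r : ℕ, List.TFAE [
        analyticOrderAt F 1 = r ∧ ∀ s ∈ Sector ρ, F s ≠ 0,
        Law a b ρ ρ' r,
        Tendsto (fun Y : ℝ => mean a b ρ ρ' Y / Real.log (Real.log Y)) atTop (𝓝 (r : ℝ))]) ∧
      ((∀ ρ ρ' : ℝ, 1 < ρ → ρ < ρ' → Law a b ρ ρ' (rank a b)) ↔
        analyticOrderAt F 1 = rank a b ∧ ∀ s : ℂ, 1 < s.re → F s ≠ 0) := by
  have E := curve_sys a b
  refine ⟨fun s hs => hasProd a b hs, fun ρ ρ' hρ hρ' => ?_, ?_, fun ρ ρ' m hρ hρ' h => ?_,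
    fun h => ?_, fun F hF => ⟨fun ρ ρ' hρ hρ' r => ?_, ?_⟩⟩
  · rw [slow_eq, Pool.Agent.TH270.SH.slow_iff E hρ hρ', ← sector_eq]
    exact ⟨fun ⟨G, hG⟩ => ⟨_, zf_up hG⟩, fun ⟨F, hF⟩ => ⟨_, zf_down hF⟩⟩
  · simp only [slow_eq]
    rw [Pool.Agent.TH270.SH.slow_all_iff E, ← half_eq]
    exact ⟨fun ⟨G, hG⟩ => ⟨_, zf_up hG⟩, fun ⟨F, hF⟩ => ⟨_, zf_down hF⟩⟩
  · obtain ⟨G, hG, hs⟩ := Pool.Agent.TH270.SH.Gr.cont E hρ hρ' ((law_eq a b ρ ρ' m).1 h)
    rw [← sector_eq] at hG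
    exact ⟨_, zf_up hG, size_up hs⟩
  · obtain ⟨G, hG, hs⟩ := Pool.Agent.TH270.SH.gr_all E (m := rank a b)
      fun ρ ρ' hρ hρ' => (law_eq a b ρ ρ' _).1 (h ρ ρ' hρ hρ')
    rw [← half_eq] at hG
    exact ⟨_, zf_up hG, size_up hs⟩
  · have h1 := Pool.Agent.TH270.SH.law_tfae E (con hF) (ana hF) hρ hρ' r
    rw [order_eq, ← sector_eq] at h1
    simp only [mean_eq, law_eq]
    have h2 : (∀ s ∈ Sector ρ, F s ≠ 0) ↔ ∀ s ∈ {s | 1 + s ∈ Sector ρ}, F (1 + s) ≠ 0 := by
      constructor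
      · exact fun h s hs => h _ hs
      · intro h s hs
        have := h (s - 1) (by rw [Set.mem_ofPred_eq, add_sub_cancel]; exact hs)
        rwa [add_sub_cancel] at this
    rw [h2]
    exact h1
  · have h1 := Pool.Agent.TH270.SH.law_all E (con hF) (ana hF) (rank a b)
    rw [order_eq] at h1
    simp only [law_eq]
    rw [h1]
    refine and_congr_right fun _ => ?_
    constructor
    · intro h s hs
      have := h (s - 1) (by rw [Complex.sub_re, Complex.one_re]; linarith)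
      rwa [add_sub_cancel] at this
    · intro h s hs
      exact h _ (by rw [Complex.add_re, Complex.one_re]; linarith)

end Pool.Agent.Results.MP_32c55d_nt.SectorialLaw
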